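import Mathlib

set_option autoImplicit false

namespace Pool.Agent.Lib.MP_3a81bf_co

open Finset

/-- vertices of the n-cube -/
abbrev V (n : ℕ) : Type := Fin n → Bool

/-- the neighbour of w in direction i -/
def flp {n : ℕ} (w : V n) (i : Fin n) : V n := Function.update w i (!(w i))

/-- number of vertices in B -/
def size {n : ℕ} (B : V n → Bool) : ℕ := ∑ x, (B x).toNat

/-- number of neighbours of w in B -/
def deg {n : ℕ} (B : V n → Bool) (w : V n) : ℕ := ∑ i, (B (flp w i)).toNat

/-- number of edges between B and its complement -/
def bdry {n : ℕ} (B : V n → Bool) : ℕ := ∑ w, if B w then 0 else deg B w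

/-- restriction of B to a facet -/
def res {n : ℕ} {α : Type} (B : V (n + 1) → α) (b : Bool) : V n → α :=
  fun x => B (Fin.cons b x)

theorem sum_succ {n : ℕ} (F : V (n + 1) → ℕ) :
    ∑ x, F x = ∑ x : V n, F (Fin.cons false x) + ∑ x : V n, F (Fin.cons true x) := by
  rw [← (Fin.consEquiv (fun _ : Fin (n + 1) => Bool)).sum_comp, Fintype.sum_prod_type]
  simp [Fin.consEquiv, add_comm]

theorem flp_cons_zero {n : ℕ} (b : Bool) (x : V n) :
    flp (Fin.cons b x : V (n + 1)) 0 = Fin.cons (!b) x := by
  unfold flp
  simp

theorem flp_cons_succ {n : ℕ} (b : Bool) (x : V n) (i : Fin n) :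
    flp (Fin.cons b x : V (n + 1)) i.succ = Fin.cons b (flp x i) := by
  unfold flp
  simp [Fin.cons_update]

theorem flp_flp {n : ℕ} (x : V n) (i : Fin n) : flp (flp x i) i = x := by
  unfold flp
  simp

theorem deg_cons {n : ℕ} (B : V (n + 1) → Bool) (b : Bool) (x : V n) :
    deg B (Fin.cons b x) = (res B (!b) x).toNat + deg (res B b) x := by
  unfold deg
  rw [Fin.sum_univ_succ, flp_cons_zero]
  simp only [flp_cons_succ, res]

theorem size_succ {n : ℕ} (B : V (n + 1) → Bool) :
    size B = size (res B false) + size (res B true) := by
  unfold size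
  rw [sum_succ]
  rfl

theorem size_compl {n : ℕ} (B : V n → Bool) :
    size B + size (fun x => !(B x)) = 2 ^ n := by
  unfold size
  rw [← Finset.sum_add_distrib]
  have : ∀ x, (B x).toNat + (!(B x)).toNat = 1 := by
    intro x; cases B x <;> rfl
  simp [this]

theorem bdry_succ {n : ℕ} (B : V (n + 1) → Bool) :
    ∃ c : ℕ, bdry B = bdry (res B false) + bdry (res B true) + c ∧
      size (res B false) ≤ size (res B true) + c ∧
      size (res B true) ≤ size (res B false) + c := by
  refine ⟨∑ x : V n, (xor (res B false x) (res B true x)).toNat, ?_, ?_, ?_⟩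
  · unfold bdry
    rw [sum_succ, ← Finset.sum_add_distrib, ← Finset.sum_add_distrib, ← Finset.sum_add_distrib]
    refine Finset.sum_congr rfl ?_
    intro x _
    rw [deg_cons, deg_cons]
    have h0 : B (Fin.cons false x) = res B false x := rfl
    have h1 : B (Fin.cons true x) = res B true x := rfl
    rw [h0, h1]
    simp only [Bool.not_false, Bool.not_true]
    cases res B false x <;> cases res B true x <;> simp <;> omega
  · unfold size
    rw [← Finset.sum_add_distrib]
    refine Finset.sum_le_sum ?_
    intro x _
    cases res B false x <;> cases res B true x <;> simp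
  · unfold size
    rw [← Finset.sum_add_distrib]
    refine Finset.sum_le_sum ?_
    intro x _
    cases res B false x <;> cases res B true x <;> simp

/-- a weak edge-isoperimetric inequality in the cube -/
theorem iso : ∀ (n : ℕ) (B : V n → Bool),
    min (4 * size B) (min (2 ^ n) (4 * (2 ^ n - size B))) ≤ 2 * bdry B := by
  intro n
  induction n with
  | zero =>
    intro B
    have h := size_compl B
    simp only [pow_zero] at h ⊢
    omega
  | succ n ih =>
    intro B
    obtain ⟨c, h1, h2, h3⟩ := bdry_succ B
    have i0 := ih (res B false)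
    have i1 := ih (res B true)
    have s0 := size_compl (res B false)
    have s1 := size_compl (res B true)
    rw [size_succ B, h1, pow_succ]
    omega

theorem bdry_le {n : ℕ} (B : V n → Bool) (D : V n → ℕ)
    (h : ∀ w, B w = false → deg B w ≤ D w) : bdry B ≤ ∑ w, D w := by
  unfold bdry
  refine Finset.sum_le_sum ?_
  intro w _
  cases hb : B w
  · simpa using h w hb
  · simp

/-- the facet induction -/
theorem facet : ∀ (n : ℕ) (D : V n → ℕ),
    (∀ v, D v = 0 → ∃ B : V n → Bool, B v = true ∧ 2 * size B ≤ 2 ^ n ∧
      ∀ w, B w = false → deg B w ≤ D w) → 2 ^ n ≤ 2 * ∑ w, D w := by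
  intro n
  induction n with
  | zero =>
    intro D h
    by_contra hc
    have h0 : ∑ w, D w = 0 := by simp only [pow_zero] at hc; omega
    have hv : D default = 0 := by
      have := (Finset.sum_eq_zero_iff.mp h0) default (Finset.mem_univ _)
      exact this
    obtain ⟨B, hB, hs, -⟩ := h default hv
    have : (B default).toNat ≤ size B := by
      unfold size
      exact Finset.single_le_sum (f := fun x => (B x).toNat) (fun _ _ => Nat.zero_le _)
        (Finset.mem_univ _)
    rw [hB] at this
    simp at this hs
    omega
  | succ n ih =>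
    intro D h
    by_cases hbig : ∃ B : V (n + 1) → Bool, 2 ^ (n + 1) ≤ 4 * size B ∧
        2 * size B ≤ 2 ^ (n + 1) ∧ ∀ w, B w = false → deg B w ≤ D w
    · obtain ⟨B, h1, h2, h3⟩ := hbig
      have i := iso (n + 1) B
      have j := bdry_le B D h3
      omega
    · push Not at hbig
      have key : ∀ b : Bool, 2 ^ n ≤ 2 * ∑ w, res D b w := by
        intro b
        apply ih
        intro v hv
        obtain ⟨B, hB, hs, hl⟩ := h (Fin.cons b v) hv
        have hsm : 4 * size B < 2 ^ (n + 1) := by
          by_contra hc
          obtain ⟨w, hw1, hw2⟩ := hbig B (by omega) hs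
          have := hl w hw1
          omega
        refine ⟨res B b, hB, ?_, ?_⟩
        · have := size_succ B
          rw [pow_succ] at hsm
          cases b <;> omega
        · intro w hw
          have h1 := hl (Fin.cons b w) hw
          rw [deg_cons] at h1
          have : res D b w = D (Fin.cons b w) := rfl
          omega
      have k0 := key false
      have k1 := key true
      rw [sum_succ D, pow_succ]
      unfold res at k0 k1
      omega

end Pool.Agent.Lib.MP_3a81bf_co
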