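import Pool.Agent.Lib.MP_3a81bf_co.Reduce

/-! The divisorial gonality of the hypercube graph, stated with literal chip-firing moves. -/

set_option autoImplicit false

namespace Pool.Agent.Lib.MP_3a81bf_co.GonalityOld

open Pool.Agent.Lib.MP_3a81bf_co

open Classical in
/-- Firing the vertex `v`: one chip moves from `v` along each edge at `v` to its other endpoint. -/
noncomputable def fire {W : Type} [Fintype W] (G : SimpleGraph W) (v : W) (D : W → ℤ) : W → ℤ :=
  fun w => if w = v then D w - (G.degree v : ℤ) else if G.Adj v w then D w + 1 else D w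

/-- Two divisors are equivalent if one is obtained from the other by a finite sequence of firings
and reverse firings. -/
def Equivalent {W : Type} [Fintype W] (G : SimpleGraph W) (D E : W → ℤ) : Prop :=
  Relation.ReflTransGen (fun A B => ∃ v, B = fire G v A ∨ A = fire G v B) D E

/-- A divisor is effective if all its values are nonnegative. -/
def Effective {W : Type} (D : W → ℤ) : Prop := ∀ w, 0 ≤ D w

open Classical in
/-- For every vertex `v` the divisor `D - (v)` is equivalent to an effective divisor. -/
def RankGeOne {W : Type} [Fintype W] (G : SimpleGraph W) (D : W → ℤ) : Prop :=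
  ∀ v, ∃ E, Effective E ∧ Equivalent G (fun w => if w = v then D w - 1 else D w) E

/-- `g` is the minimum degree of an effective divisor of rank at least one. -/
def IsGonality {W : Type} [Fintype W] (G : SimpleGraph W) (g : ℤ) : Prop :=
  IsLeast {d : ℤ | ∃ D : W → ℤ, Effective D ∧ RankGeOne G D ∧ ∑ w, D w = d} g

/-- The hypercube graph: vertices are the `0/1` vectors of length `n`, adjacent exactly when they
differ in one coordinate. -/
def cube (n : ℕ) : SimpleGraph (Fin n → Bool) where
  Adj x y := hammingDist x y = 1
  symm := ⟨fun x y h => by rwa [hammingDist_comm]⟩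
  loopless := ⟨fun x h => by simp at h⟩

theorem flp_apply_self {n : ℕ} (w : V n) (i : Fin n) : flp w i i = !(w i) := by simp [flp]

theorem flp_apply_ne {n : ℕ} (w : V n) {i j : Fin n} (h : j ≠ i) : flp w i j = w j := by
  simp [flp, Function.update_of_ne h]

theorem flp_inj {n : ℕ} (w : V n) : Function.Injective (flp w) := by
  intro i j h
  by_contra hij
  have h1 := congrFun h i
  rw [flp_apply_self, flp_apply_ne w hij] at h1
  cases hw : w i <;> simp [hw] at h1

theorem flp_ne_self {n : ℕ} (w : V n) (i : Fin n) : flp w i ≠ w := by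
  intro h
  have h1 := congrFun h i
  rw [flp_apply_self] at h1
  cases hw : w i <;> simp [hw] at h1

theorem adj_iff {n : ℕ} (v w : V n) : (cube n).Adj v w ↔ ∃ i, flp v i = w := by
  change hammingDist v w = 1 ↔ _
  rw [hammingDist, Finset.card_eq_one]
  constructor
  · rintro ⟨i, hi⟩
    refine ⟨i, funext fun j => ?_⟩
    have hj : j ∈ ({i} : Finset (Fin n)) ↔ v j ≠ w j := by
      rw [← hi]
      simp
    by_cases h : j = i
    · subst h
      have h2 : v j ≠ w j := hj.mp (Finset.mem_singleton_self j)
      rw [flp_apply_self]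
      cases hv : v j <;> cases hw : w j <;> simp [hv, hw] at h2 ⊢
    · rw [flp_apply_ne v h]
      by_contra h2
      exact h (Finset.mem_singleton.mp (hj.mpr h2))
  · rintro ⟨i, rfl⟩
    refine ⟨i, Finset.ext fun j => ?_⟩
    by_cases h : j = i
    · subst h
      simp [flp_apply_self]
    · simp [flp_apply_ne v h, h]

theorem degree_cube {n : ℕ} (v : V n) [Fintype ((cube n).neighborSet v)] :
    (cube n).degree v = n := by
  have h : (cube n).neighborFinset v = Finset.univ.image (flp v) := by
    ext w
    simp [adj_iff]
  rw [← SimpleGraph.card_neighborFinset_eq_degree, h,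
    Finset.card_image_of_injective _ (flp_inj v)]
  simp

theorem lap_def {n : ℕ} (f : V n → ℤ) (w : V n) :
    lap f w = (n : ℤ) * f w - ∑ i : Fin n, f (flp w i) := rfl

theorem fire_eq {n : ℕ} (v : V n) (D : V n → ℤ) :
    fire (cube n) v D = fun w => D w - lap (Pi.single v 1) w := by
  funext w
  unfold fire
  rw [lap_def]
  by_cases h : w = v
  · subst h
    rw [if_pos rfl, degree_cube, Finset.sum_eq_zero]
    · simp
    · intro i _
      exact Pi.single_eq_of_ne (flp_ne_self w i) _
  · rw [if_neg h, Pi.single_eq_of_ne h]
    by_cases ha : (cube n).Adj v w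
    · rw [if_pos ha]
      obtain ⟨i, hi⟩ := (adj_iff w v).mp ha.symm
      rw [Finset.sum_eq_single i]
      · rw [hi]
        simp
      · intro j _ hj
        refine Pi.single_eq_of_ne (fun hc => hj (flp_inj w (hc.trans hi.symm))) _
      · intro hc
        exact absurd (Finset.mem_univ i) hc
    · rw [if_neg ha, Finset.sum_eq_zero]
      · simp
      · intro i _
        refine Pi.single_eq_of_ne (fun hc => ha ((adj_iff w v).mpr ⟨i, hc⟩).symm) _

theorem lap_add' {n : ℕ} (f g : V n → ℤ) (w : V n) : lap (f + g) w = lap f w + lap g w := by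
  simp only [lap_def, Pi.add_apply, Finset.sum_add_distrib]
  ring

theorem lap_neg' {n : ℕ} (f : V n → ℤ) (w : V n) : lap (-f) w = -lap f w := by
  simp only [lap_def, Pi.neg_apply, Finset.sum_neg_distrib]
  ring

theorem lap_zero' {n : ℕ} (w : V n) : lap (0 : V n → ℤ) w = 0 := by
  simp [lap_def]

theorem equivalent_iff {n : ℕ} (D E : V n → ℤ) :
    Equivalent (cube n) D E ↔ ∃ f : V n → ℤ, E = fun w => D w - lap f w := by
  constructor
  · intro h
    induction h with
    | refl => exact ⟨0, funext fun w => by rw [lap_zero', sub_zero]⟩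
    | tail _ hstep ih =>
      obtain ⟨f, hf⟩ := ih
      obtain ⟨v, hv | hv⟩ := hstep
      · refine ⟨f + Pi.single v 1, funext fun w => ?_⟩
        rw [hv, fire_eq, hf, lap_add']
        ring
      · refine ⟨f + -Pi.single v 1, funext fun w => ?_⟩
        have h1 := congrFun hv w
        have h2 := congrFun hf w
        rw [fire_eq] at h1
        simp only at h1 h2
        rw [lap_add', lap_neg']
        linarith
  · rintro ⟨f, rfl⟩
    have hadd : ∀ f g : V n → ℤ,
        (∀ D, Equivalent (cube n) D fun w => D w - lap f w) →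
        (∀ D, Equivalent (cube n) D fun w => D w - lap g w) →
        ∀ D, Equivalent (cube n) D fun w => D w - lap (f + g) w := by
      intro f g hf hg D
      have e : (fun w => D w - lap (f + g) w) = fun w => (D w - lap f w) - lap g w :=
        funext fun w => by rw [lap_add']; ring
      rw [e]
      exact (hf D).trans (hg _)
    have hzero : ∀ D, Equivalent (cube n) D fun w => D w - lap 0 w := by
      intro D
      have e : (fun w => D w - lap 0 w) = D := funext fun w => by rw [lap_zero', sub_zero]
      rw [e]
      exact Relation.ReflTransGen.refl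
    have hone : ∀ v : V n, ∀ D,
        Equivalent (cube n) D fun w => D w - lap (Pi.single v 1) w := by
      intro v D
      exact Relation.ReflTransGen.single ⟨v, Or.inl (fire_eq v D).symm⟩
    have hneg : ∀ v : V n, ∀ D,
        Equivalent (cube n) D fun w => D w - lap (-Pi.single v 1) w := by
      intro v D
      refine Relation.ReflTransGen.single ⟨v, Or.inr ?_⟩
      rw [fire_eq]
      funext w
      rw [lap_neg']
      ring
    have hk : ∀ (v : V n) (k : ℤ), ∀ D,
        Equivalent (cube n) D fun w => D w - lap (Pi.single v k) w := by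
      intro v k
      induction k using Int.induction_on with
      | zero =>
        rw [Pi.single_zero]
        exact hzero
      | succ k ih =>
        rw [Pi.single_add]
        exact hadd _ _ ih (hone v)
      | pred k ih =>
        rw [Pi.single_sub, sub_eq_add_neg]
        exact hadd _ _ ih (hneg v)
    have hf : f = ∑ v, Pi.single v (f v) := (Finset.univ_sum_single f).symm
    rw [hf]
    exact Finset.sum_induction _
      (fun g : V n → ℤ => ∀ D, Equivalent (cube n) D fun w => D w - lap g w)
      hadd hzero (fun v _ => hk v (f v)) D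

theorem rank_iff {n : ℕ} (D : V n → ℤ) :
    RankGeOne (cube n) D ↔ ∀ v : V n, ∃ f : V n → ℤ, ∀ w : V n,
      0 ≤ D w - (if w = v then 1 else 0) - lap f w := by
  refine forall_congr' fun v => ?_
  constructor
  · rintro ⟨E, hE, h⟩
    obtain ⟨f, rfl⟩ := (equivalent_iff _ _).mp h
    refine ⟨f, fun w => ?_⟩
    have h1 := hE w
    by_cases hw : w = v
    · simp only [if_pos hw] at h1 ⊢
      exact h1
    · simp only [if_neg hw] at h1 ⊢
      linarith
  · rintro ⟨f, hf⟩
    refine ⟨_, fun w => ?_, (equivalent_iff _ _).mpr ⟨f, rfl⟩⟩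
    have h1 := hf w
    by_cases hw : w = v
    · simp only [if_pos hw] at h1 ⊢
      exact h1
    · simp only [if_neg hw] at h1 ⊢
      linarith

/-- The divisorial gonality of the `n`-dimensional hypercube graph is `2 ^ (n - 1)`. -/
theorem result : ∀ n : ℕ, 1 ≤ n → IsGonality (cube n) (2 ^ (n - 1)) := by
  intro n hn
  obtain ⟨m, rfl⟩ : ∃ m, n = m + 1 := ⟨n - 1, by omega⟩
  rw [Nat.add_sub_cancel]
  constructor
  · obtain ⟨D, h1, h2⟩ := upper m
    refine ⟨fun w => (D w : ℤ), fun w => Int.natCast_nonneg _, (rank_iff _).mpr h2, ?_⟩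
    have h3 : ((∑ x, D x : ℕ) : ℤ) = ((2 ^ m : ℕ) : ℤ) := congrArg _ h1
    push_cast at h3
    exact h3
  · rintro d ⟨D, hE, hr, rfl⟩
    have hD : ∀ w, ((D w).toNat : ℤ) = D w := fun w => Int.toNat_of_nonneg (hE w)
    have h := lower (fun w => (D w).toNat) (by
      intro v
      obtain ⟨f, hf⟩ := (rank_iff D).mp hr v
      exact ⟨f, fun w => by rw [hD w]; exact hf w⟩)
    have h2 : ((2 ^ (m + 1) : ℕ) : ℤ) ≤ ((2 * ∑ w, (D w).toNat : ℕ) : ℤ) := Int.ofNat_le.mpr h
    push_cast at h2
    simp only [hD] at h2
    rw [pow_succ] at h2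
    linarith

end Pool.Agent.Lib.MP_3a81bf_co.GonalityOld
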