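import Mathlib
import Pool.Agent.Lib.MP_3a81bf_co.Cube

set_option autoImplicit false

namespace Pool.Agent.Lib.MP_3a81bf_co

open Finset

/-- the graph Laplacian of the cube -/
def lap {n : ℕ} (f : V n → ℤ) (w : V n) : ℤ := (n : ℤ) * f w - ∑ i : Fin n, f (flp w i)

theorem lap_eq {n : ℕ} (f : V n → ℤ) (w : V n) :
    lap f w = ∑ i : Fin n, (f w - f (flp w i)) := by
  unfold lap
  rw [Finset.sum_sub_distrib]
  simp

theorem lap_add {n : ℕ} (f g : V n → ℤ) (w : V n) :
    lap (fun x => f x + g x) w = lap f w + lap g w := by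
  simp only [lap_eq]
  rw [← Finset.sum_add_distrib]
  refine Finset.sum_congr rfl ?_
  intro i _
  ring

theorem lap_sub {n : ℕ} (f g : V n → ℤ) (w : V n) :
    lap (fun x => f x - g x) w = lap f w - lap g w := by
  simp only [lap_eq]
  rw [← Finset.sum_sub_distrib]
  refine Finset.sum_congr rfl ?_
  intro i _
  ring

theorem sum_lap {n : ℕ} (f : V n → ℤ) : ∑ w, lap f w = 0 := by
  simp only [lap_eq]
  rw [Finset.sum_comm]
  refine Finset.sum_eq_zero ?_
  intro i _
  rw [Finset.sum_sub_distrib, sub_eq_zero]
  let e : V n ≃ V n :=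
    { toFun := fun x => flp x i
      invFun := fun x => flp x i
      left_inv := fun x => flp_flp x i
      right_inv := fun x => flp_flp x i }
  exact (e.sum_comp f).symm

theorem deg_cast {n : ℕ} (B : V n → Bool) (w : V n) :
    (deg B w : ℤ) = ∑ i : Fin n, (if B (flp w i) = true then (1 : ℤ) else 0) := by
  unfold deg
  push_cast
  refine Finset.sum_congr rfl ?_
  intro i _
  cases B (flp w i) <;> simp

theorem bdry_le_int {n : ℕ} (B : V n → Bool) (E : V n → ℤ) (h0 : ∀ w, 0 ≤ E w)
    (h : ∀ w, B w = false → (deg B w : ℤ) ≤ E w) : (bdry B : ℤ) ≤ ∑ w, E w := by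
  unfold bdry
  push_cast
  refine Finset.sum_le_sum ?_
  intro w _
  cases hb : B w
  · simpa using h w hb
  · simpa using h0 w

theorem size_pos {n : ℕ} (B : V n → Bool) (v : V n) (hv : B v = true) : 0 < size B := by
  have : (B v).toNat ≤ size B := by
    unfold size
    exact Finset.single_le_sum (f := fun x => (B x).toNat) (fun _ _ => Nat.zero_le _)
      (Finset.mem_univ _)
  rw [hv] at this
  exact this

theorem size_or {n : ℕ} (A B : V n → Bool) :
    size (fun x => A x || B x) ≤ size A + size B := by
  unfold size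
  rw [← Finset.sum_add_distrib]
  refine Finset.sum_le_sum ?_
  intro x _
  show (A x || B x).toNat ≤ (A x).toNat + (B x).toNat
  cases A x <;> cases B x <;> simp

theorem exists_not_of_size_lt {n : ℕ} (B : V n → Bool) (h : size B < 2 ^ n) :
    ∃ x, B x = false := by
  by_contra hc
  push Not at hc
  have h1 := size_compl B
  have h2 : size (fun x => !(B x)) = 0 := by
    unfold size
    refine Finset.sum_eq_zero ?_
    intro x _
    have := hc x
    show (!(B x)).toNat = 0
    cases hb : B x
    · exact absurd hb this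
    · rfl
  omega

/-- at a maximum point the Laplacian dominates the number of non-maximal neighbours -/
theorem lap_max {n : ℕ} (g : V n → ℤ) (m : ℤ) (hm : ∀ x, g x ≤ m) (w : V n) (hw : g w = m) :
    (deg (fun x => decide (g x ≠ m)) w : ℤ) ≤ lap g w := by
  rw [deg_cast, lap_eq]
  refine Finset.sum_le_sum ?_
  intro i _
  have := hm (flp w i)
  split_ifs with h
  · simp only [ne_eq, decide_not, Bool.not_eq_eq_eq_not, Bool.not_true,
      decide_eq_false_iff_not] at h
    omega
  · omega

/-- harmonic functions are constant -/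
theorem harmonic_const {n : ℕ} (g : V n → ℤ) (h : ∀ w, lap g w = 0) (x y : V n) :
    g x = g y := by
  obtain ⟨w0, -, hw0⟩ := Finset.exists_max_image (Finset.univ : Finset (V n)) g
    Finset.univ_nonempty
  have hm : ∀ x, g x ≤ g w0 := fun x => hw0 x (Finset.mem_univ _)
  set B : V n → Bool := fun x => decide (g x ≠ g w0) with hB
  have hb : (bdry B : ℤ) ≤ ∑ _w : V n, (0 : ℤ) := by
    refine bdry_le_int B (fun _ => 0) (fun _ => le_refl _) ?_
    intro w hw
    have hw' : g w = g w0 := by simpa [hB] using hw
    have := lap_max g (g w0) hm w hw'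
    rw [h w] at this
    exact this
  have hb0 : bdry B = 0 := by
    simp only [Finset.sum_const_zero] at hb
    omega
  have i := iso n B
  have c := size_compl B
  have p : 0 < size (fun x => !(B x)) := size_pos _ w0 (by simp [hB])
  have s0 : size B = 0 := by omega
  have all : ∀ z, g z = g w0 := by
    intro z
    by_contra hz
    have := size_pos B z (by simp [hB, hz])
    omega
  rw [all x, all y]

/-- firing scripts with small support that keep the divisor effective -/
def Good {n : ℕ} (D : V n → ℕ) : Set (V n → ℤ) :=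
  {f | (∀ x, 0 ≤ f x) ∧ (∀ w, 0 ≤ (D w : ℤ) - lap f w) ∧
    4 * size (fun x => decide (f x ≠ 0)) < 2 ^ n}

theorem sum_fire {n : ℕ} (D : V n → ℕ) (f : V n → ℤ) :
    ∑ w, ((D w : ℤ) - lap f w) = ((∑ w, D w : ℕ) : ℤ) := by
  rw [Finset.sum_sub_distrib, sum_lap]
  simp

theorem good_finite {n : ℕ} (D : V n → ℕ) : (Good D).Finite := by
  let φ : (V n → ℤ) → (V n → ℤ) := fun f w => (D w : ℤ) - lap f w
  refine Set.Finite.of_finite_image (f := φ) ?_ ?_
  · refine (Set.finite_Icc (fun _ => (0 : ℤ)) (fun _ => ((∑ w, D w : ℕ) : ℤ))).subset ?_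
    rintro _ ⟨f, hf, rfl⟩
    refine ⟨fun w => hf.2.1 w, fun w => ?_⟩
    rw [← sum_fire D f]
    exact Finset.single_le_sum (f := fun w => (D w : ℤ) - lap f w) (fun x _ => hf.2.1 x)
      (Finset.mem_univ w)
  · intro f hf g hg hfg
    have h0 : ∀ w, lap (fun x => f x - g x) w = 0 := by
      intro w
      have := congrFun hfg w
      simp only [φ] at this
      rw [lap_sub]
      omega
    have hs := size_or (fun x => decide (f x ≠ 0)) (fun x => decide (g x ≠ 0))
    have h1 := hf.2.2
    have h2 := hg.2.2
    obtain ⟨z, hz⟩ := exists_not_of_size_lt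
      (fun x => decide (f x ≠ 0) || decide (g x ≠ 0)) (by omega)
    have hz' : f z = 0 ∧ g z = 0 := by simpa using hz
    funext x
    have := harmonic_const _ h0 x z
    simp only [hz'.1, hz'.2] at this
    omega

theorem zero_good {n : ℕ} (D : V n → ℕ) : (fun _ => (0 : ℤ)) ∈ Good D := by
  refine ⟨fun _ => le_refl _, fun w => ?_, ?_⟩
  · simp [lap]
  · simp [size]

/-- the lower bound for the gonality of the cube -/
theorem lower {n : ℕ} (D : V n → ℕ)
    (hD : ∀ v : V n, ∃ f : V n → ℤ, ∀ w : V n,
      0 ≤ (D w : ℤ) - (if w = v then 1 else 0) - lap f w) :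
    2 ^ n ≤ 2 * ∑ w, D w := by
  by_contra hlt
  push Not at hlt
  obtain ⟨f, hf, hmax⟩ := Set.exists_max_image (Good D) (fun f => ∑ x, f x) (good_finite D)
    ⟨_, zero_good D⟩
  obtain ⟨hf0, hfE, hfs⟩ := hf
  have hsum := sum_fire D f
  let E : V n → ℕ := fun w => ((D w : ℤ) - lap f w).toNat
  have hE : ∀ w, (E w : ℤ) = (D w : ℤ) - lap f w := fun w => Int.toNat_of_nonneg (hfE w)
  have hEsum : ∑ w, E w = ∑ w, D w := by
    have : ((∑ w, E w : ℕ) : ℤ) = ((∑ w, D w : ℕ) : ℤ) := by
      rw [← hsum]
      push_cast
      exact Finset.sum_congr rfl (fun w _ => hE w)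
    exact_mod_cast this
  have key := facet n E ?_
  · omega
  intro v hv
  obtain ⟨fv, hfv⟩ := hD v
  let g : V n → ℤ := fun x => fv x - f x
  have hg : ∀ w, 0 ≤ (E w : ℤ) - (if w = v then 1 else 0) - lap g w := by
    intro w
    have := hfv w
    rw [hE, lap_sub]
    omega
  obtain ⟨w0, -, hw0⟩ := Finset.exists_max_image (Finset.univ : Finset (V n)) g
    Finset.univ_nonempty
  have hm : ∀ x, g x ≤ g w0 := fun x => hw0 x (Finset.mem_univ _)
  set B : V n → Bool := fun x => decide (g x ≠ g w0) with hB
  have hlegal : ∀ w, B w = false → (deg B w : ℤ) ≤ (E w : ℤ) - (if w = v then 1 else 0) := by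
    intro w hw
    have hw' : g w = g w0 := by simpa [hB] using hw
    have h1 : (deg B w : ℤ) ≤ lap g w := lap_max g (g w0) hm w hw'
    have h2 := hg w
    omega
  have hlegal' : ∀ w, B w = false → deg B w ≤ E w := by
    intro w hw
    have := hlegal w hw
    split_ifs at this <;> omega
  have hBv : B v = true := by
    by_contra hc
    have hc' : B v = false := by simpa using hc
    have := hlegal v hc'
    rw [hv] at this
    simp at this
    omega
  refine ⟨B, hBv, ?_, hlegal'⟩
  by_contra hbig
  push Not at hbig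
  have hb := bdry_le B E hlegal'
  have i := iso n B
  have c := size_compl B
  have hA : 4 * size (fun x => !(B x)) < 2 ^ n := by omega
  -- fire the complement of B
  let a : V n → ℤ := fun x => if B x = true then 0 else 1
  have ha0 : ∀ x, 0 ≤ a x := by
    intro x; simp only [a]; split_ifs <;> omega
  have hfire : ∀ w, 0 ≤ (D w : ℤ) - lap (fun x => f x + a x) w := by
    intro w
    rw [lap_add]
    have h1 := hE w
    cases hw : B w
    · have h2 := hlegal' w hw
      have h3 : lap a w = deg B w := by
        rw [lap_eq, deg_cast]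
        refine Finset.sum_congr rfl ?_
        intro i _
        simp only [a, hw]
        cases B (flp w i) <;> simp
      omega
    · have h3 : lap a w ≤ 0 := by
        rw [lap_eq]
        refine Finset.sum_nonpos ?_
        intro i _
        have := ha0 (flp w i)
        have h4 : a w = 0 := by simp [a, hw]
        omega
      omega
  set U : V n → Bool := fun x => decide (f x + a x ≠ 0) with hU
  have hUs : size U ≤ size (fun x => decide (f x ≠ 0)) + size (fun x => !(B x)) := by
    refine le_trans ?_ (size_or _ _)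
    unfold size
    refine Finset.sum_le_sum ?_
    intro x _
    show (decide (f x + a x ≠ 0)).toNat ≤ (decide (f x ≠ 0) || !(B x)).toNat
    cases hx : B x
    · simpa using Bool.toNat_le _
    · have : a x = 0 := by simp [a, hx]
      simp [this]
  have hUb : (bdry U : ℤ) ≤ ∑ w, ((D w : ℤ) - lap (fun x => f x + a x) w) := by
    refine bdry_le_int U _ hfire ?_
    intro w hw
    have hw' : f w + a w = 0 := by simpa [hU] using hw
    have h1 : (deg U w : ℤ) ≤ - lap (fun x => f x + a x) w := by
      rw [deg_cast, lap_eq, ← Finset.sum_neg_distrib]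
      refine Finset.sum_le_sum ?_
      intro i _
      have p1 := hf0 (flp w i)
      have p2 := ha0 (flp w i)
      split_ifs with h
      · have : f (flp w i) + a (flp w i) ≠ 0 := by simpa [hU] using h
        omega
      · omega
    omega
  rw [sum_fire] at hUb
  have iU := iso n U
  have hUsmall : 4 * size U < 2 ^ n := by omega
  have hgood : (fun x => f x + a x) ∈ Good D :=
    ⟨fun x => add_nonneg (hf0 x) (ha0 x), hfire, hUsmall⟩
  have hle := hmax _ hgood
  simp only [Finset.sum_add_distrib] at hle
  have hpos : a w0 ≤ ∑ x, a x :=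
    Finset.single_le_sum (f := a) (fun x _ => ha0 x) (Finset.mem_univ w0)
  have : a w0 = 1 := by simp [a, hB]
  omega

/-- the upper bound for the gonality of the cube -/
theorem upper (n : ℕ) : ∃ D : V (n + 1) → ℕ, ∑ x, D x = 2 ^ n ∧
    ∀ v : V (n + 1), ∃ f : V (n + 1) → ℤ, ∀ w : V (n + 1),
      0 ≤ (D w : ℤ) - (if w = v then 1 else 0) - lap f w := by
  refine ⟨fun x => if x 0 = true then 0 else 1, ?_, ?_⟩
  · rw [sum_succ]
    simp
  · intro v
    cases hv : v 0
    · refine ⟨fun _ => 0, fun w => ?_⟩
      by_cases hw : w = v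
      · subst hw
        simp [lap, hv]
      · cases hw0 : w 0 <;> simp [lap, hw, hw0]
    · refine ⟨fun x => if x 0 = true then 0 else 1, fun w => ?_⟩
      rw [lap_eq, Fin.sum_univ_succ]
      have h1 : ∀ i : Fin n, flp w i.succ 0 = w 0 := by
        intro i
        unfold flp
        rw [Function.update_of_ne (Fin.succ_ne_zero i).symm]
      have h2 : flp w 0 0 = !(w 0) := by
        unfold flp
        simp
      simp only [h1, h2, sub_self, Finset.sum_const_zero, add_zero]
      by_cases hw : w = v
      · subst hw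
        simp [hv]
      · cases w 0 <;> simp [hw]

end Pool.Agent.Lib.MP_3a81bf_co
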