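import Mathlib

/-! Edge isoperimetry and slicing for products of complete graphs. -/

set_option autoImplicit false

namespace Pool.Agent.Lib.MP_3a81bf_co.Rk

open Finset

theorem step_aux {A : Type} [Fintype A] (x : A → ℝ) {n b c : ℝ} (hb1 : 1 ≤ b)
    (hb : b ≤ Fintype.card A) (h1 : Fintype.card A * c ≤ Fintype.card A - 1)
    (h2 : c * (b + 1) ≤ b) (h3 : 2 * c ≤ b) (hn : 0 ≤ n) {i k : A} (hi : ∀ j, x i ≤ x j)
    (hk : ∀ j, x j ≤ x k) (h0 : 0 ≤ x i) (hkn : x k ≤ n) (hik : x i ≤ n - x k) :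
    min (b * ∑ j, x j) (c * (Fintype.card A * n)) ≤
      ∑ j, (min (b * x j) (min (c * n) (b * (n - x j))) + ∑ l, max (x l - x j) 0) := by
  classical
  obtain ⟨m, hm⟩ : ∃ m : ℝ, m = Fintype.card A := ⟨_, rfl⟩
  rw [← hm] at hb h1 ⊢
  have m0 : 0 < m := by linarith
  have t1 : ∀ j, ∑ l, x l - m * x j ≤ ∑ l, max (x l - x j) 0 := fun j => by
    have := sum_le_sum fun l (_ : l ∈ univ) => le_max_left (x l - x j) 0
    rwa [sum_sub_distrib, sum_const, card_univ, nsmul_eq_mul, ← hm] at this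
  have t2 : ∀ j, x k - x j ≤ ∑ l, max (x l - x j) 0 := fun j => (le_max_left _ 0).trans
    (single_le_sum (f := fun l => max (x l - x j) 0) (fun _ _ => le_max_right _ _) (mem_univ k))
  rcases le_total (c * n) (b * (n - x k)) with h | h
  · have key : ∀ j, min (b * ∑ j, x j) (c * (m * n)) / m ≤
        min (b * x j) (min (c * n) (b * (n - x j))) + ∑ l, max (x l - x j) 0 := fun j => by
      have t0 : 0 ≤ ∑ l, max (x l - x j) 0 := by linarith [t2 j, hk j]
      have h4 : c * n ≤ b * (n - x j) := by nlinarith [hk j]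
      rw [min_eq_left h4, div_le_iff₀ m0]
      rcases le_total (b * x j) (c * n) with e | e
      · rw [min_eq_left e]
        refine (min_le_left _ _).trans ?_
        nlinarith [mul_le_mul_of_nonneg_left (t1 j) (by linarith : 0 ≤ b),
          mul_nonneg (sub_nonneg.2 hb) t0]
      · rw [min_eq_right e]
        refine (min_le_right _ _).trans ?_
        nlinarith [mul_nonneg m0.le t0]
    refine le_trans (le_of_eq ?_) (sum_le_sum fun j _ => key j)
    rw [sum_const, card_univ, nsmul_eq_mul, ← hm, mul_div_cancel₀ _ m0.ne']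
  · have h5 : b * x i ≤ b * (n - x k) := by nlinarith
    have key : ∀ j, (b * x i + if j = k then b * (n - x k) - b * x i else 0) +
        (x k - x j + if j = i then ∑ l, x l - m * x i - (x k - x i) else 0) ≤
        min (b * x j) (min (c * n) (b * (n - x j))) + ∑ l, max (x l - x j) 0 := fun j => by
      refine add_le_add ?_ ?_
      · split_ifs with e
        · subst e
          refine le_min (by nlinarith) (le_min (by linarith) (by linarith))
        · refine le_min (by nlinarith [hi j]) (le_min (by linarith) (by nlinarith [hk j]))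
      · split_ifs with e
        · subst e
          linarith [t1 j]
        · linarith [t2 j]
    refine (min_le_right _ _).trans (le_trans ?_ (sum_le_sum fun j _ => key j))
    simp only [sum_add_distrib, sum_sub_distrib, sum_ite_eq', mem_univ, if_true, sum_const,
      card_univ, nsmul_eq_mul, ← hm]
    have h6 : 0 ≤ (m - 1) * ((b - 1) * x i) := mul_nonneg (by linarith) (mul_nonneg (by linarith) h0)
    have h7 : c * (m * n) ≤ (m - 1) * x k + b * (n - x k) := by
      rcases le_total (m - 1) b with e | e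
      · nlinarith [mul_nonneg (sub_nonneg.2 e) (sub_nonneg.2 hkn), mul_le_mul_of_nonneg_right h1 hn]
      · refine le_of_mul_le_mul_left ?_ (by linarith : 0 < b)
        nlinarith [mul_le_mul_of_nonneg_left h (sub_nonneg.2 e),
          mul_nonneg (mul_nonneg (by linarith : 0 ≤ m - 1) (sub_nonneg.2 h2)) hn]
    linarith

theorem step {A : Type} [Fintype A] (x : A → ℝ) {n b c : ℝ} (hb1 : 1 ≤ b)
    (hb : b ≤ Fintype.card A) (h1 : Fintype.card A * c ≤ Fintype.card A - 1)
    (h2 : c * (b + 1) ≤ b) (h3 : 2 * c ≤ b) (h0 : ∀ j, 0 ≤ x j) (hn : ∀ j, x j ≤ n) :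
    min (b * ∑ j, x j) (min (c * (Fintype.card A * n)) (b * ∑ j, (n - x j))) ≤
      ∑ j, (min (b * x j) (min (c * n) (b * (n - x j))) + ∑ l, max (x l - x j) 0) := by
  have : Nonempty A := Fintype.card_pos_iff.1 (Nat.cast_pos.1 (one_pos.trans_le (hb1.trans hb)))
  obtain ⟨i, hi⟩ := Finite.exists_min x
  obtain ⟨k, hk⟩ := Finite.exists_max x
  have n0 : 0 ≤ n := (h0 i).trans (hn i)
  rcases le_total (x i) (n - x k) with h | h
  · exact (min_le_min_left _ (min_le_left _ _)).trans
      (step_aux x hb1 hb h1 h2 h3 n0 hi hk (h0 i) (hn k) h)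
  · have := step_aux (fun j => n - x j) hb1 hb h1 h2 h3 n0 (i := k) (k := i)
      (fun j => by linarith [hk j]) (fun j => by linarith [hi j]) (by linarith [hn k])
      (by linarith [h0 i]) (by linarith)
    refine ((min_le_right _ _).trans (min_comm _ _).le).trans (this.trans_eq ?_)
    rw [sum_add_distrib, sum_add_distrib, sum_comm]
    simp only [sub_sub_cancel, sub_sub_sub_cancel_left, min_comm, min_left_comm]

variable {V V' A : Type} [Fintype V] [Fintype V'] [Fintype A] [DecidableEq V] [DecidableEq V']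

open Classical in
/-- The number of neighbours of `w` in `B`. -/
noncomputable def dg (G : SimpleGraph V) (B : Finset V) (w : V) : ℤ :=
  ∑ x, if x ∈ B ∧ G.Adj w x then 1 else 0

/-- The number of edges between `B` and its complement. -/
noncomputable def bd (G : SimpleGraph V) (B : Finset V) : ℤ := ∑ w ∈ Bᶜ, dg G B w

/-- The isoperimetric inequality. -/
def Iso (G : SimpleGraph V) (c b : ℝ) : Prop := ∀ B : Finset V,
  min (b * B.card) (min (c * Fintype.card V) (b * Bᶜ.card)) ≤ bd G B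

/-- Configurations that reach every empty vertex by one move with many firing vertices. -/
def Fac (G : SimpleGraph V) (c a : ℝ) : Prop := ∀ D : V → ℤ, (∀ w, 0 ≤ D w) →
  (∀ v, D v = 0 → ∃ B : Finset V, v ∈ B ∧ c * Fintype.card V ≤ a * Bᶜ.card ∧
    ∀ w ∉ B, dg G B w ≤ D w) → c * Fintype.card V ≤ (∑ w, D w : ℤ)

/-- `G` contains the product of the complete graph on `A` with `G'`. -/
structure Fib (G : SimpleGraph V) (G' : SimpleGraph V') (e : A × V' ≃ V) : Prop where
  hor : ∀ t y y', G'.Adj y y' → G.Adj (e (t, y)) (e (t, y'))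
  ver : ∀ t t' y, t ≠ t' → G.Adj (e (t, y)) (e (t', y))

/-- A slice of `B`. -/
def sl (e : A × V' ≃ V) (B : Finset V) (t : A) : Finset V' := univ.filter fun y => e (t, y) ∈ B

variable {G : SimpleGraph V} {G' : SimpleGraph V'} {e : A × V' ≃ V} {c b a : ℝ}

theorem bd_le {B : Finset V} {D : V → ℤ} (h0 : ∀ w, 0 ≤ D w) (h : ∀ w ∉ B, dg G B w ≤ D w) :
    bd G B ≤ ∑ w, D w :=
  (sum_le_sum fun w hw => h w (mem_compl.1 hw)).trans
    (sum_le_sum_of_subset_of_nonneg (subset_univ _) fun w _ _ => h0 w)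

omit [DecidableEq V'] in
theorem sum_sl (e : A × V' ≃ V) (B : Finset V) {M : Type} [AddCommMonoid M] (F : V → M) :
    ∑ w ∈ B, F w = ∑ t, ∑ y ∈ sl e B t, F (e (t, y)) := by
  rw [← sum_ite_mem_eq, ← e.sum_comp, Fintype.sum_prod_type]
  simp only [sl, sum_filter]

omit [Fintype A] in
theorem sl_compl (e : A × V' ≃ V) (B : Finset V) (t : A) : sl e Bᶜ t = (sl e B t)ᶜ := by
  ext y
  simp [sl]

theorem Fib.dg_le (h : Fib G G' e) {B : Finset V} {t : A} {y : V'} (hy : y ∉ sl e B t) :
    dg G' (sl e B t) y + ∑ t', (if y ∈ sl e B t' then 1 else 0) ≤ dg G B (e (t, y)) := by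
  classical
  rw [dg.eq_1 G, ← e.sum_comp, Fintype.sum_prod_type,
    ← Fintype.sum_ite_eq' t fun _ => dg G' (sl e B t) y, ← sum_add_distrib]
  refine sum_le_sum fun t' _ => ?_
  by_cases ht : t' = t
  · subst ht
    rw [if_pos rfl, if_neg hy, add_zero]
    refine sum_le_sum fun y' _ => ?_
    split_ifs with h1 h2
    exacts [le_rfl, absurd ⟨(mem_filter.1 h1.1).2, h.hor _ _ _ h1.2⟩ h2, zero_le_one, le_rfl]
  · rw [if_neg ht, zero_add]
    refine le_trans ?_ (single_le_sum (fun _ _ => by positivity) (mem_univ y))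
    split_ifs with h1 h2
    exacts [le_rfl, absurd ⟨(mem_filter.1 h1).2, h.ver _ _ _ (Ne.symm ht)⟩ h2, zero_le_one, le_rfl]

theorem Fib.iso (h : Fib G G' e) (hG : Iso G' c b) (hb1 : 1 ≤ b)
    (hb : b ≤ Fintype.card A) (h1 : Fintype.card A * c ≤ Fintype.card A - 1)
    (h2 : c * (b + 1) ≤ b) (h3 : 2 * c ≤ b) : Iso G c b := fun B => by
  have e1 : ∀ S : Finset V', (Sᶜ.card : ℝ) = Fintype.card V' - S.card := fun S => by
    rw [← card_add_card_compl S]; push_cast; ring
  have e2 : ∀ S : Finset V, (S.card : ℝ) = ∑ t, ((sl e S t).card : ℝ) := fun S => by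
    simpa using sum_sl e S fun _ => (1 : ℝ)
  have := step (fun t => ((sl e B t).card : ℝ)) (n := Fintype.card V') hb1 hb h1 h2 h3
    (fun _ => Nat.cast_nonneg _) fun t => by exact_mod_cast card_le_univ _
  rw [e2, e2, ← Fintype.card_congr e, Fintype.card_prod, bd, sum_sl e]
  simp only [sl_compl, e1]
  push_cast
  refine this.trans (sum_le_sum fun t _ => ?_)
  have h4 : bd G' (sl e B t) + ∑ t', (((sl e B t' \ sl e B t).card : ℕ) : ℤ) ≤
      ∑ y ∈ (sl e B t)ᶜ, dg G B (e (t, y)) := by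
    refine le_trans (le_of_eq ?_) (sum_le_sum fun y hy => h.dg_le (mem_compl.1 hy))
    rw [sum_add_distrib, sum_comm, bd]
    simp [sdiff_eq_inter_compl, inter_comm]
  have h5 := hG (sl e B t)
  rw [e1] at h5
  refine (add_le_add h5 (sum_le_sum fun t' _ => max_le (?_ : _ ≤ ((sl e B t' \ sl e B t).card : ℝ))
    (Nat.cast_nonneg _))).trans (by exact_mod_cast h4)
  rw [sub_le_iff_le_add]
  exact_mod_cast card_le_card_sdiff_add_card

theorem Iso.gap (hG : Iso G c b) {B : Finset V} (h : (bd G B : ℝ) < c * Fintype.card V) :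
    b * B.card < c * Fintype.card V ∨ b * Bᶜ.card < c * Fintype.card V := by
  simpa using (hG B).trans_lt h

theorem Fib.fac (h : Fib G G' e) (hG : Iso G c (Fintype.card A)) (hG' : Fac G' c a) (h0 : 0 ≤ a)
    (ha : a ≤ Fintype.card A) (h2 : c * (a + 1) ≤ a) : Fac G c a := fun D hD hB => by
  by_contra hlt
  rw [not_le] at hlt
  have hN : (Fintype.card V : ℝ) = Fintype.card A * Fintype.card V' := by
    rw [← Fintype.card_congr e, Fintype.card_prod, Nat.cast_mul]
  have key : ∀ t, c * Fintype.card V' ≤ (∑ y, D (e (t, y)) : ℤ) := fun t => by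
    refine hG' _ (fun _ => hD _) fun v hv => ?_
    obtain ⟨B, h3, h4, h5⟩ := hB _ hv
    refine ⟨sl e B t, by simpa [sl] using h3, ?_, fun y hy => ?_⟩
    · have h6 := (hG.gap ((Int.cast_le.2 (bd_le hD h5)).trans_lt hlt)).resolve_right
        (not_lt.2 (h4.trans (mul_le_mul_of_nonneg_right ha (Nat.cast_nonneg _))))
      have h7 : ((sl e B t).card : ℝ) ≤ B.card := Nat.cast_le.2 (card_le_card_of_injOn
        (fun y => e (t, y)) (fun y hy => by simpa [sl] using hy) fun y _ y' _ e => by simpa using e)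
      have h8 : ((sl e B t).card : ℝ) + (sl e B t)ᶜ.card = Fintype.card V' := by
        exact_mod_cast card_add_card_compl _
      have h9 : (0 : ℝ) < Fintype.card A := Nat.cast_pos.2 (Fintype.card_pos_iff.2 ⟨t⟩)
      rw [hN, mul_left_comm, mul_lt_mul_iff_right₀ h9] at h6
      nlinarith [mul_le_mul_of_nonneg_left (h7.trans h6.le) h0,
        mul_le_mul_of_nonneg_right h2 (Nat.cast_nonneg (α := ℝ) (Fintype.card V'))]
    · refine le_trans ?_ ((h.dg_le hy).trans (h5 _ (by simpa [sl] using hy)))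
      exact le_add_of_nonneg_right (sum_nonneg fun _ _ => by positivity)
  have := sum_le_sum fun t (_ : t ∈ univ) => key t
  rw [sum_const, card_univ, nsmul_eq_mul, mul_left_comm, ← hN, ← Int.cast_sum,
    ← Fintype.sum_prod_type' fun t y => D (e (t, y)), e.sum_comp] at this
  exact hlt.not_ge this

theorem bd_top (hG : ∀ x y, x ≠ y → G.Adj x y) {B : Finset V} (h1 : B.Nonempty)
    (h2 : Bᶜ.Nonempty) : (Fintype.card V : ℝ) - 1 ≤ bd G B := by
  classical
  have h3 : (Bᶜ.card : ℤ) * B.card ≤ bd G B := by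
    rw [← nsmul_eq_mul, ← sum_const]
    refine sum_le_sum fun w hw => le_of_eq ?_
    rw [dg, sum_congr rfl fun x _ => if_congr (and_iff_left_of_imp fun hx =>
      hG w x fun e => mem_compl.1 hw (e ▸ hx)) rfl rfl]
    simp
  have h4 : (1 : ℝ) ≤ B.card := Nat.one_le_cast.2 h1.card_pos
  have h5 : (1 : ℝ) ≤ Bᶜ.card := Nat.one_le_cast.2 h2.card_pos
  have h6 : (Bᶜ.card : ℝ) * B.card ≤ bd G B := by exact_mod_cast h3
  rw [← card_add_card_compl B, Nat.cast_add]
  nlinarith [mul_nonneg (sub_nonneg.2 h4) (sub_nonneg.2 h5)]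

theorem iso_top (hG : ∀ x y, x ≠ y → G.Adj x y) (hc : c * Fintype.card V = Fintype.card V - 1)
    (b : ℝ) : Iso G c b := fun B => by
  have h0 : (0 : ℝ) ≤ bd G B :=
    Int.cast_nonneg (sum_nonneg fun _ _ => sum_nonneg fun _ _ => by positivity)
  rcases B.eq_empty_or_nonempty with h | h
  · exact (min_le_left _ _).trans (by rwa [card_eq_zero.2 h, Nat.cast_zero, mul_zero])
  rcases Bᶜ.eq_empty_or_nonempty with h' | h'
  · exact (min_le_right _ _).trans ((min_le_right _ _).trans
      (by rwa [h', card_empty, Nat.cast_zero, mul_zero]))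
  · exact (min_le_right _ _).trans ((min_le_left _ _).trans (hc.trans_le (bd_top hG h h')))

theorem fac_top (hG : ∀ x y, x ≠ y → G.Adj x y) (hc : c * Fintype.card V = Fintype.card V - 1)
    (h2 : 2 ≤ Fintype.card V) (a : ℝ) : Fac G c a := fun D hD hB => by
  rw [hc] at hB ⊢
  have h3 : (2 : ℝ) ≤ Fintype.card V := by exact_mod_cast h2
  by_cases h : ∃ v, D v = 0
  · obtain ⟨v, hv⟩ := h
    obtain ⟨B, h4, h5, h6⟩ := hB v hv
    refine (bd_top hG ⟨v, h4⟩ (nonempty_iff_ne_empty.2 fun h7 => ?_)).trans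
      (Int.cast_le.2 (bd_le hD h6))
    rw [h7, card_empty, Nat.cast_zero] at h5
    linarith
  · have := card_nsmul_le_sum univ D 1 fun v _ => (hD v).lt_of_ne' fun e => h ⟨v, e⟩
    rw [card_univ, nsmul_eq_mul, mul_one] at this
    have : (Fintype.card V : ℝ) ≤ (∑ w, D w : ℤ) := by exact_mod_cast this
    linarith

/-- The product of complete graphs. -/
def rk {d : ℕ} (α : Fin d → Type) : SimpleGraph ((i : Fin d) → α i) where
  Adj x y := ∃ i, x i ≠ y i ∧ ∀ j, j ≠ i → x j = y j
  symm := ⟨fun _ _ ⟨i, h1, h2⟩ => ⟨i, h1.symm, fun j hj => (h2 j hj).symm⟩⟩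
  loopless := ⟨fun _ ⟨_, h, _⟩ => h rfl⟩

theorem rk_fib {d : ℕ} (α : Fin (d + 1) → Type) (p : Fin (d + 1)) :
    Fib (rk α) (rk fun i => α (p.succAbove i)) (Fin.insertNthEquiv α p) where
  hor t y y' := fun ⟨i, h1, h2⟩ => ⟨p.succAbove i, by simpa [Fin.insertNthEquiv] using h1, fun j => by
    refine p.succAboveCases (fun _ => by simp [Fin.insertNthEquiv]) (fun j hj => ?_) j
    simpa [Fin.insertNthEquiv] using h2 j fun e => hj (e ▸ rfl)⟩
  ver t t' y h := ⟨p, by simpa [Fin.insertNthEquiv] using h, fun j =>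
    p.succAboveCases (fun hj => absurd rfl hj) (fun j _ => by simp [Fin.insertNthEquiv]) j⟩

theorem rk_iso_fac {a : ℕ} (ha : 2 ≤ a) (d : ℕ) : ∀ (α : Fin (d + 1) → Type)
    [∀ i, Fintype (α i)] [∀ i, DecidableEq (α i)] (i₀ : Fin (d + 1)), Fintype.card (α i₀) = a →
    (∀ i, a ≤ Fintype.card (α i)) →
    (∀ b : ℕ, a ≤ b → (∀ i, i ≠ i₀ → b ≤ Fintype.card (α i)) → Iso (rk α) (1 - 1 / a) b) ∧
      Fac (rk α) (1 - 1 / a) a := by
  have a2 : (2 : ℝ) ≤ a := by exact_mod_cast ha
  have a0 : (0 : ℝ) < 1 / a := by positivity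
  have a1 : (a : ℝ) * (1 / a) = 1 := mul_one_div_cancel (by positivity)
  induction d with
  | zero =>
    intro α _ _ i₀ h0 _
    have hG : ∀ x y, x ≠ y → (rk α).Adj x y := fun x y h => by
      obtain ⟨i, hi⟩ := Function.ne_iff.1 h
      exact ⟨i, hi, fun j hj => absurd (Subsingleton.elim (α := Fin 1) j i) hj⟩
    have hN : Fintype.card ((i : Fin (0 + 1)) → α i) = a := by
      rw [Fintype.card_pi, Fin.prod_univ_succAbove _ i₀, h0]
      simp
    have hc : (1 - 1 / a : ℝ) * Fintype.card ((i : Fin (0 + 1)) → α i) =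
        Fintype.card ((i : Fin (0 + 1)) → α i) - 1 := by rw [hN]; linarith
    exact ⟨fun b _ _ => iso_top hG hc b, fac_top hG hc (hN ▸ ha) a⟩
  | succ d ih =>
    intro α _ _ i₀ h0 h1
    obtain ⟨p, hp, hmin⟩ := (univ.erase i₀).exists_min_image (fun i => Fintype.card (α i))
      (card_pos.1 (by simp))
    obtain ⟨i₁, rfl⟩ := Fin.exists_succAbove_eq (ne_of_mem_erase hp).symm
    obtain ⟨h2, h3⟩ := ih (fun i => α (p.succAbove i)) i₁ h0 fun i => h1 _
    have h4 : ∀ b : ℕ, a ≤ b → (∀ i, i ≠ p.succAbove i₁ → b ≤ Fintype.card (α i)) →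
        Iso (rk α) (1 - 1 / a) b := fun b hb h => by
      have b1 : (a : ℝ) ≤ b := Nat.cast_le.2 hb
      have b2 : (b : ℝ) ≤ Fintype.card (α p) := Nat.cast_le.2 (h p (ne_of_mem_erase hp))
      exact (rk_fib α p).iso (h2 b hb fun i hi => h _ fun e => hi (Fin.succAbove_right_injective e))
        (by linarith) b2 (by nlinarith) (by nlinarith) (by linarith)
    exact ⟨h4, (rk_fib α p).fac (h4 _ (h1 p) fun i hi => hmin i (by simpa using hi)) h3
      (by linarith) (Nat.cast_le.2 (h1 p)) (by nlinarith)⟩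

end Pool.Agent.Lib.MP_3a81bf_co.Rk
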