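import Pool.Agent.Lib.MP_3a81bf_co.RkIso

/-! From divisors of positive rank to configurations that are stable under small firings. -/

set_option autoImplicit false

namespace Pool.Agent.Lib.MP_3a81bf_co.Rk

open Finset

variable {V : Type} [Fintype V] [DecidableEq V] {G : SimpleGraph V} {c a : ℝ}

open Classical in
/-- The Laplacian. -/
noncomputable def lap (G : SimpleGraph V) : (V → ℤ) →+ V → ℤ where
  toFun f w := ∑ x, if G.Adj w x then f w - f x else 0
  map_zero' := by ext; simp
  map_add' f g := by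
    ext w
    simp only [Pi.add_apply, ← sum_add_distrib]
    exact sum_congr rfl fun x _ => by split_ifs <;> ring

omit [DecidableEq V] in
open Classical in
theorem lap_apply (f : V → ℤ) (w : V) :
    lap G f w = ∑ x, if G.Adj w x then f w - f x else 0 := rfl

omit [DecidableEq V] in
theorem sum_lap (f : V → ℤ) : ∑ w, lap G f w = 0 := by
  have : ∑ w, lap G f w = -∑ w, lap G f w := by
    simp only [lap_apply]
    conv_lhs => rw [sum_comm]
    simp only [← sum_neg_distrib]
    refine sum_congr rfl fun w _ => sum_congr rfl fun x _ => ?_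
    rw [G.adj_comm]
    split_ifs <;> simp
  omega

theorem dg_le_lap {g : V → ℤ} {B : Finset V} {w : V} (h1 : ∀ x, g x ≤ g w)
    (h2 : ∀ x ∈ B, g x ≠ g w) : dg G B w ≤ lap G g w := by
  refine sum_le_sum fun x _ => ?_
  have := h1 x
  split_ifs with h3 h4 h4
  · have := h2 x h3.1
    omega
  · exact absurd h3.2 h4
  · omega
  · exact le_rfl

theorem Iso.const (hG : Iso G c a) (hc : 0 < c) (ha : 0 < a) {g : V → ℤ} (h : lap G g = 0)
    (x y : V) : g x = g y := by
  have : Nonempty V := ⟨x⟩
  obtain ⟨z, hz⟩ := Finite.exists_max g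
  suffices ∀ x, g x = g z by rw [this x, this y]
  intro x
  by_contra hx
  have h1 := bd_le (G := G) (B := univ.filter fun x => g x ≠ g z) (D := 0) (fun _ => le_rfl)
    fun w hw => by
      have e : g w = g z := by simpa using hw
      exact (dg_le_lap (fun x => e ▸ hz x) fun x hx => e ▸ (mem_filter.1 hx).2).trans_eq
        (congrFun h w)
  refine absurd ((hG _).trans (Int.cast_le.2 h1)) (not_le.2 ?_)
  simp only [Pi.zero_apply, sum_const_zero, Int.cast_zero, lt_min_iff]
  exact ⟨mul_pos ha (Nat.cast_pos.2 (card_pos.2 ⟨x, by simpa using hx⟩)),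
    mul_pos hc (Nat.cast_pos.2 Fintype.card_pos),
    mul_pos ha (Nat.cast_pos.2 (card_pos.2 ⟨z, by simp⟩))⟩

theorem lower [Nonempty V] (hI : Iso G c a) (hF : Fac G c a) (hc : 0 < c) (ha : 3 * c ≤ a)
    (D : V → ℤ) (h0 : ∀ w, 0 ≤ D w)
    (hD : ∀ v, ∃ f : V → ℤ, ∀ w, 0 ≤ D w - (if w = v then 1 else 0) - lap G f w) :
    c * Fintype.card V ≤ (∑ w, D w : ℤ) := by
  by_contra hlt
  rw [not_le] at hlt
  have N0 : (0 : ℝ) < Fintype.card V := Nat.cast_pos.2 Fintype.card_pos
  have hs : ∀ f, ∑ w, (D w - lap G f w) = ∑ w, D w := fun f => by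
    rw [sum_sub_distrib, sum_lap, sub_zero]
  have un : ∀ S T U : Finset V, a * S.card < c * Fintype.card V → a * T.card < c * Fintype.card V →
      U ⊆ S ∪ T → c * Fintype.card V < a * Uᶜ.card := fun S T U h1 h2 h3 => by
    have h4 : (U.card : ℝ) ≤ S.card + T.card := by
      exact_mod_cast (card_le_card h3).trans (card_union_le _ _)
    have h5 : (U.card : ℝ) + Uᶜ.card = Fintype.card V := by exact_mod_cast card_add_card_compl U
    nlinarith [mul_le_mul_of_nonneg_left h4 (by linarith : 0 ≤ a),
      mul_le_mul_of_nonneg_right ha N0.le]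
  let S : Set (V → ℤ) := {f | (∀ x, 0 ≤ f x) ∧ (∀ w, 0 ≤ D w - lap G f w) ∧
    a * (univ.filter fun x => f x ≠ 0).card < c * Fintype.card V}
  have fin : S.Finite := by
    refine Set.Finite.of_finite_image (f := fun f w => D w - lap G f w) ?_ fun f hf g hg e => ?_
    · refine (Set.finite_Icc (fun _ => (0 : ℤ)) fun _ => ∑ w, D w).subset ?_
      rintro _ ⟨f, hf, rfl⟩
      exact ⟨hf.2.1, fun w => (single_le_sum (f := fun w => D w - lap G f w)
        (fun x _ => hf.2.1 x) (mem_univ w)).trans_eq (hs f)⟩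
    · have h1 := un _ _ _ hf.2.2 hg.2.2 subset_rfl
      obtain ⟨z, hz⟩ := card_pos.1 (Nat.cast_pos.1
        ((mul_pos_iff_of_pos_left (by linarith)).1 ((mul_pos hc N0).trans h1)))
      have h2 : f z = 0 ∧ g z = 0 := by simpa using hz
      funext x
      have := hI.const hc (by linarith) (g := f - g) (funext fun w => by
        have := congrFun e w
        simp only [map_sub, Pi.sub_apply, Pi.zero_apply] at this ⊢
        omega) x z
      simp only [Pi.sub_apply] at this
      omega
  obtain ⟨f, ⟨f0, fE, fs⟩, hmax⟩ := Set.exists_max_image S (fun f => ∑ x, f x) fin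
    ⟨0, fun _ => le_rfl, by simpa using h0, by simpa using mul_pos hc N0⟩
  refine hlt.not_ge (hs f ▸ hF _ fE fun v hv => ?_)
  obtain ⟨fv, hfv⟩ := hD v
  obtain ⟨z, hz⟩ := Finite.exists_max (fv - f)
  obtain ⟨B, hB⟩ : ∃ B : Finset V, ∀ x, x ∈ B ↔ (fv - f) x ≠ (fv - f) z :=
    ⟨univ.filter fun x => (fv - f) x ≠ (fv - f) z, fun x => mem_filter_univ x⟩
  have leg : ∀ w ∉ B, dg G B w ≤ D w - lap G f w - if w = v then 1 else 0 := fun w hw => by
    have e : (fv - f) w = (fv - f) z := by simpa [hB] using hw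
    have h1 := dg_le_lap (G := G) (fun x => e ▸ hz x) fun x hx => e ▸ (hB x).1 hx
    have h2 := hfv w
    rw [map_sub, Pi.sub_apply] at h1
    omega
  have leg' : ∀ w ∉ B, dg G B w ≤ D w - lap G f w := fun w hw => by
    have := leg w hw
    split_ifs at this <;> omega
  have dg0 : ∀ w, 0 ≤ dg G B w := fun w => sum_nonneg fun _ _ => by positivity
  refine ⟨B, by_contra fun h => ?_, not_lt.1 fun h => ?_, leg'⟩
  · have h1 := leg v h
    have h2 := dg0 v
    rw [if_pos rfl] at h1
    omega
  let χ : V → ℤ := fun x => if x ∈ B then 0 else 1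
  have χ0 : ∀ x, 0 ≤ χ x := fun x => by positivity
  have p0 : ∀ x, 0 ≤ (f + χ) x := fun x => add_nonneg (f0 x) (χ0 x)
  have pE : ∀ w, 0 ≤ D w - lap G (f + χ) w := fun w => by
    rw [map_add, Pi.add_apply]
    have h1 := fE w
    by_cases hw : w ∈ B
    · have : lap G χ w ≤ 0 := sum_nonpos fun x _ => by
        split_ifs
        exacts [by simpa [χ, hw] using χ0 x, le_rfl]
      omega
    · have h2 := leg' w hw
      have : lap G χ w ≤ dg G B w := sum_le_sum fun x _ => by
        by_cases h3 : G.Adj w x <;> by_cases h4 : x ∈ B <;> simp [χ, hw, h3, h4]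
      omega
  have h3 : bd G (univ.filter fun x => (f + χ) x ≠ 0) ≤ ∑ w, D w := hs (f + χ) ▸
    bd_le pE fun w hw => by
      have e : (f + χ) w = 0 := by simpa only [mem_filter, mem_univ, true_and, not_not] using hw
      have h1 := dg_le_lap (G := G) (g := -(f + χ)) (w := w)
        (B := univ.filter fun x => (f + χ) x ≠ 0) (fun x => neg_le_neg (e ▸ p0 x))
        fun x hx h => (mem_filter.1 hx).2 ((neg_injective h).trans e)
      have h2 := h0 w
      rw [map_neg, Pi.neg_apply] at h1
      omega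
  have h4 := (hI.gap ((Int.cast_le.2 h3).trans_lt hlt)).resolve_right
    (un _ _ _ fs h fun x hx => by
      by_cases hx' : x ∈ B
      · exact mem_union_left _ (by simpa [χ, hx'] using hx)
      · exact mem_union_right _ (mem_compl.2 hx')).not_gt
  have h5 := hmax _ ⟨p0, pE, h4⟩
  have h6 := single_le_sum (f := χ) (fun x _ => χ0 x) (mem_univ z)
  simp only [Pi.add_apply, sum_add_distrib] at h5
  have h7 : χ z = 1 := if_neg fun h => (hB z).1 h rfl
  omega

variable {d : ℕ} {α : Fin d → Type} [∀ i, Fintype (α i)] [∀ i, DecidableEq (α i)]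

theorem upper (i₀ : Fin d) {s t : α i₀} (hst : s ≠ t) (v : (i : Fin d) → α i) :
    ∃ f, ∀ w, 0 ≤ (if w i₀ = t then 0 else 1 : ℤ) - (if w = v then 1 else 0) - lap (rk α) f w := by
  classical
  by_cases hv : v i₀ = t
  · refine ⟨fun w => if w i₀ = t then 0 else 1, fun w => ?_⟩
    by_cases hw : w i₀ = t
    · have h1 := dg_le_lap (G := rk α) (g := -fun w => if w i₀ = t then 0 else 1) (w := w)
        (B := {Function.update w i₀ s}) (fun x => by simp [hw]; positivity) (by simp [hw, hst])
      have h2 : (rk α).Adj w (Function.update w i₀ s) :=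
        ⟨i₀, by simpa [hw] using hst.symm, fun j hj => by simp [hj]⟩
      rw [map_neg, Pi.neg_apply] at h1
      simp only [dg, mem_singleton, ite_and, sum_ite_eq', mem_univ, if_true, h2] at h1
      split_ifs <;> omega
    · have h1 : lap (rk α) (fun w => if w i₀ = t then 0 else 1) w ≤
          ∑ x, if x = Function.update w i₀ t then 1 else 0 := sum_le_sum fun x _ => by
        by_cases h2 : (rk α).Adj w x ∧ x i₀ = t
        · obtain ⟨⟨i, h3, h4⟩, h5⟩ := id h2
          obtain rfl : i₀ = i := by_contra fun h => hw ((h4 _ h).trans h5)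
          rw [if_pos h2.1, if_pos (Function.eq_update_iff.2 ⟨h5, fun j hj => (h4 j hj).symm⟩)]
          simp [hw, h5]
        · split_ifs <;> simp_all
      rw [sum_ite_eq', if_pos (mem_univ _)] at h1
      rw [if_neg hw, if_neg fun e : w = v => hw (e ▸ hv)]
      omega
  · refine ⟨0, fun w => ?_⟩
    split_ifs with h1 h2 <;> simp_all

theorem upper_sum (i₀ : Fin d) (t : α i₀) :
    ∑ w : (i : Fin d) → α i, (if w i₀ = t then 0 else 1 : ℤ) =
      (Fintype.card (α i₀) - 1) * ∏ i ∈ univ.erase i₀, (Fintype.card (α i) : ℤ) := by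
  have h1 := Fintype.card_filter_piFinset_eq_of_mem (fun i => (univ : Finset (α i))) i₀ (mem_univ t)
  have h2 : ∀ w : (i : Fin d) → α i,
      (if w i₀ = t then 0 else 1 : ℤ) = 1 - if w i₀ = t then 1 else 0 := fun w => by
    split_ifs <;> rfl
  simp only [h2, sum_sub_distrib, sum_boole, sum_const, card_univ, Fintype.card_pi, nsmul_eq_mul,
    ← mul_prod_erase univ _ (mem_univ i₀)]
  rw [Fintype.piFinset_univ] at h1
  rw [h1]
  simp only [card_univ]
  push_cast
  ring

end Pool.Agent.Lib.MP_3a81bf_co.Rk
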